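import Mathlib
import Pool.Agent.W2helper24.TQ.Stm

/-!
# Piece B5 of project TQ: arithmetic modulo `√-3` and modulo `4`
-/

set_option autoImplicit false

open Complex Filter Topology IsDedekindDomain
open scoped PeriodPair

namespace Pool.Agent.W2helper66.TQ

open H667R3 Pool.Agent.Y696 Pool.Agent.W192.HK Pool.Agent.TH936.CM Pool.Agent.TH936.PU
open Pool.Agent.W2helper24.TQ

lemma lam_sq : (lam : eis) ^ 2 = -3 := by
  unfold lam
  linear_combination 4 * omr_sq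

lemma lam_ne : (lam : eis) ≠ 0 := by
  intro h
  have h1 := lam_sq
  rw [h] at h1
  exact three_ne (by linear_combination h1)

lemma lam_dvd_three : (lam : eis) ∣ 3 := ⟨-lam, by linear_combination lam_sq⟩

/-- the classes modulo `√-3` -/
lemma lam_mod (x : eis) : x ∈ (sp lam : Ideal eis) ∨ x - 1 ∈ (sp lam : Ideal eis) ∨
    x + 1 ∈ (sp lam : Ideal eis) := by
  obtain ⟨a, b, rfl⟩ := eis_rep x
  obtain ⟨q, hq⟩ : ∃ q : ℤ, a + b = 3 * q + 0 ∨ a + b = 3 * q + 1 ∨ a + b = 3 * q + (-1) :=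
    ⟨(a + b + 1) / 3, by omega⟩
  have key : ∀ e : ℤ, a + b = 3 * q + e → (a : eis) + b * omr - (e : eis) ∈ (sp lam : Ideal eis) := by
    intro e he
    rw [Ideal.mem_span_singleton']
    refine ⟨b * (1 + omr) - lam * q, ?_⟩
    have he' : (a : eis) + b = 3 * q + e := by exact_mod_cast he
    unfold lam
    linear_combination (2 * (b : eis) - 4 * q) * omr_sq - he'
  rcases hq with hq | hq | hq
  · left
    have := key 0 hq
    simpa using this
  · right; left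
    have := key 1 hq
    simpa using this
  · right; right
    have := key (-1) hq
    simpa using this

lemma lam_not_unit : ¬ IsUnit (lam : eis) := by
  intro h
  have h1 : IsUnit (3 : eis) := by
    have h2 : (3 : eis) = -lam ^ 2 := by linear_combination lam_sq
    rw [h2]
    exact (h.pow 2).neg
  rw [isUnit_iff'] at h1
  have h3 : ((3 : eis) : ℂ) = 3 := rfl
  rw [h3, normSq_three] at h1
  norm_num at h1

lemma two_not_unit : ¬ IsUnit (2 : eis) := by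
  intro h
  rw [isUnit_iff'] at h
  have h3 : ((2 : eis) : ℂ) = 2 := rfl
  rw [h3] at h
  norm_num [Complex.normSq_apply] at h

lemma cop_notMem {x m : eis} (hm : ¬ IsUnit m) (h : IsCoprime x m) : x ∉ (sp m : Ideal eis) := by
  intro hx
  rw [Ideal.mem_span_singleton] at hx
  exact hm (h.isUnit_of_dvd' hx dvd_rfl)

lemma cop_lam {x : eis} (h : IsCoprime x 3) : IsCoprime x lam :=
  h.of_isCoprime_of_dvd_right lam_dvd_three

lemma tl_cop {t : eis → ℂ} (h : Thl t) {x : eis} (hx : IsCoprime x lam) :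
    (x - 1 ∈ (sp lam : Ideal eis) ∧ t x = 1) ∨ (x + 1 ∈ (sp lam : Ideal eis) ∧ t x = -1) := by
  rcases lam_mod x with h1 | h1 | h1
  · exact absurd h1 (cop_notMem lam_not_unit hx)
  · exact Or.inl ⟨h1, h.one x h1⟩
  · exact Or.inr ⟨h1, h.neg x h1⟩

lemma tl_bd {t : eis → ℂ} (h : Thl t) (x : eis) : ‖t x‖ ≤ 1 := by
  rcases lam_mod x with h1 | h1 | h1
  · rw [h.zero x h1]; simp
  · rw [h.one x h1]; simp
  · rw [h.neg x h1]; simp

/-- the three classes modulo two -/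
lemma mod_two_iff (a b : ℤ) :
    ((a : eis) + b * omr - 1 ∈ (sp 2 : Ideal eis) ↔ ¬ 2 ∣ a ∧ 2 ∣ b) ∧
    (omr * ((a : eis) + b * omr) - 1 ∈ (sp 2 : Ideal eis) ↔ ¬ 2 ∣ a ∧ ¬ 2 ∣ b) ∧
    (omr ^ 2 * ((a : eis) + b * omr) - 1 ∈ (sp 2 : Ideal eis) ↔ 2 ∣ a ∧ ¬ 2 ∣ b) := by
  refine ⟨?_, ?_, ?_⟩
  · have e : (a : eis) + b * omr - 1 = ((a - 1 : ℤ) : eis) + (b : ℤ) * omr := by push_cast; ring
    rw [e, mem_two]
    omega
  · have e : omr * ((a : eis) + b * omr) - 1 =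
        ((-b - 1 : ℤ) : eis) + ((a - b : ℤ) : eis) * omr := by
      push_cast
      linear_combination (b : eis) * omr_sq
    rw [e, mem_two]
    omega
  · have e : omr ^ 2 * ((a : eis) + b * omr) - 1 =
        ((b - a - 1 : ℤ) : eis) + ((-a : ℤ) : eis) * omr := by
      push_cast
      linear_combination ((a : eis) + b * (omr - 1)) * omr_sq
    rw [e, mem_two]
    omega

lemma mod_two {x : eis} (hx : x ∉ (sp 2 : Ideal eis)) :
    ∃ j : ℕ, omr ^ j * x - 1 ∈ (sp 2 : Ideal eis) := by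
  obtain ⟨a, b, rfl⟩ := eis_rep x
  obtain ⟨h0, h1, h2⟩ := mod_two_iff a b
  rw [mem_two] at hx
  by_cases ha : 2 ∣ a
  · exact ⟨2, h2.2 ⟨ha, fun hb => hx ⟨ha, hb⟩⟩⟩
  · by_cases hb : 2 ∣ b
    · refine ⟨0, ?_⟩
      rw [pow_zero, one_mul]
      exact h0.2 ⟨ha, hb⟩
    · refine ⟨1, ?_⟩
      rw [pow_one]
      exact h1.2 ⟨ha, hb⟩

/-- the indicator of the class of one modulo two -/
noncomputable def i0 (x : eis) : ℂ :=
  @ite _ (x - 1 ∈ (sp 2 : Ideal eis)) (Classical.propDecidable _) 1 0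

lemma i0_one {x : eis} (h : x - 1 ∈ (sp 2 : Ideal eis)) : i0 x = 1 := by
  unfold i0
  rw [if_pos h]

lemma i0_zero {x : eis} (h : x - 1 ∉ (sp 2 : Ideal eis)) : i0 x = 0 := by
  unfold i0
  rw [if_neg h]

lemma i0_congr {x y : eis} (h : x - y ∈ (sp 2 : Ideal eis)) : i0 x = i0 y := by
  by_cases hy : y - 1 ∈ (sp 2 : Ideal eis)
  · rw [i0_one hy, i0_one]
    have := add_mem h hy
    rwa [sub_add_sub_cancel] at this
  · rw [i0_zero hy, i0_zero]
    intro hx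
    apply hy
    have := sub_mem hx h
    rwa [sub_sub_sub_cancel_left, ] at this

lemma i0_sum (x : eis) (hx : x ∉ (sp 2 : Ideal eis)) :
    i0 x + i0 (omr * x) + i0 (omr ^ 2 * x) = 1 := by
  obtain ⟨a, b, rfl⟩ := eis_rep x
  obtain ⟨h0, h1, h2⟩ := mod_two_iff a b
  rw [mem_two] at hx
  by_cases ha : 2 ∣ a
  · by_cases hb : 2 ∣ b
    · exact absurd ⟨ha, hb⟩ hx
    · rw [i0_zero (fun h => (h0.1 h).1 ha), i0_zero (fun h => (h1.1 h).1 ha), i0_one (h2.2 ⟨ha, hb⟩)]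
      ring
  · by_cases hb : 2 ∣ b
    · rw [i0_one (h0.2 ⟨ha, hb⟩), i0_zero (fun h => (h1.1 h).2 hb), i0_zero (fun h => (h2.1 h).2 hb)]
      ring
    · rw [i0_zero (fun h => hb (h0.1 h).2), i0_one (h1.2 ⟨ha, hb⟩), i0_zero (fun h => ha (h2.1 h).1)]
      ring

lemma cj_rep (a b : ℤ) : cj ((a : eis) + b * omr) = (a : eis) + b * (-1 - omr) := by
  apply coe_inj'
  rw [cj_coe]
  push_cast
  rw [omr_coe, map_add, map_mul, conj_om, map_intCast, map_intCast]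
  linear_combination (b : ℂ) * om_sq

lemma norm_rep' (a b : ℤ) : ((a : eis) + b * omr) * cj ((a : eis) + b * omr) =
    ((a ^ 2 - a * b + b ^ 2 : ℤ) : eis) := by
  rw [cj_rep]
  push_cast
  linear_combination (-(b : eis) ^ 2) * omr_sq

lemma mem_four (x y : ℤ) : (x : eis) + y * omr ∈ (sp 4 : Ideal eis) ↔ 4 ∣ x ∧ 4 ∣ y := by
  rw [Ideal.mem_span_singleton']
  constructor
  · rintro ⟨t, ht⟩
    obtain ⟨a, b, hab⟩ := eis_rep t
    rw [hab] at ht
    have h1 : ((4 * a : ℤ) : eis) + ((4 * b : ℤ) : eis) * omr = (x : eis) + y * omr := by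
      rw [← ht]; push_cast; ring
    have h2 := congrArg (fun t : eis => (t : ℂ)) h1
    obtain ⟨h3, h4⟩ := coef_inj (x := 4 * a) (y := 4 * b) (a := x) (b := y) (by
      push_cast at h2 ⊢
      exact h2)
    exact ⟨⟨a, h3.symm⟩, ⟨b, h4.symm⟩⟩
  · rintro ⟨⟨a, rfl⟩, ⟨b, rfl⟩⟩
    exact ⟨a + b * omr, by push_cast; ring⟩

lemma mem_four_int (x : ℤ) : (x : eis) ∈ (sp 4 : Ideal eis) ↔ 4 ∣ x := by
  have := mem_four x 0
  simpa using this

lemma norm_mod {x : eis} (hx : x - 1 ∈ (sp 2 : Ideal eis)) :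
    x * cj x - 1 ∈ (sp 4 : Ideal eis) ∨ x * cj x + 1 ∈ (sp 4 : Ideal eis) := by
  obtain ⟨a, b, rfl⟩ := eis_rep x
  obtain ⟨h1, h2⟩ := (mod_two_iff a b).1.1 hx
  rw [norm_rep']
  have e1 : ((a ^ 2 - a * b + b ^ 2 : ℤ) : eis) - 1 = ((a ^ 2 - a * b + b ^ 2 - 1 : ℤ) : eis) := by
    push_cast; ring
  have e2 : ((a ^ 2 - a * b + b ^ 2 : ℤ) : eis) + 1 = ((a ^ 2 - a * b + b ^ 2 + 1 : ℤ) : eis) := by
    push_cast; ring
  rw [e1, e2, mem_four_int, mem_four_int]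
  obtain ⟨s, hs⟩ : ∃ s, a = 1 + 2 * s := ⟨(a - 1) / 2, by omega⟩
  obtain ⟨r, rfl | rfl⟩ : ∃ r, b = 4 * r ∨ b = 4 * r + 2 := ⟨b / 4, by omega⟩
  · left
    rw [hs]
    exact ⟨s + s ^ 2 - r - 2 * s * r + 4 * r ^ 2, by ring⟩
  · right
    rw [hs]
    exact ⟨s + s ^ 2 - r - s * (2 * r + 1) + (2 * r + 1) ^ 2, by ring⟩

lemma t4_om {t : eis → ℂ} (h : Th4 t) (j : ℕ) (x : eis) : t (omr ^ j * x) = om ^ j * t x := by
  induction j with
  | zero => simp
  | succ n ih => rw [pow_succ', mul_assoc, h.om, ih, pow_succ', mul_assoc]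

lemma t4_six {t : eis → ℂ} (h : Th4 t) {x : eis} (hx : x ∉ (sp 2 : Ideal eis)) : t x ^ 6 = 1 := by
  obtain ⟨j, hj⟩ := mod_two hx
  have h1 : t (omr ^ j * x) ^ 6 = 1 := by
    rcases norm_mod hj with h2 | h2
    · rw [h.one _ hj h2, one_pow]
    · rw [h.neg _ hj h2]
      norm_num
  rw [t4_om h, mul_pow, ← pow_mul, mul_comm j 6] at h1
  have h2 : om ^ (6 * j) = 1 := by
    rw [pow_mul, show om ^ 6 = (om ^ 3) ^ 2 by ring, om_cube, one_pow, one_pow]
  rw [h2, one_mul] at h1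
  exact h1

lemma t4_bd {t : eis → ℂ} (h : Th4 t) (x : eis) : ‖t x‖ ≤ 1 := by
  by_cases hx : x ∈ (sp 2 : Ideal eis)
  · rw [h.zero x hx]; simp
  · exact (Complex.norm_eq_one_of_pow_eq_one (t4_six h hx) (by norm_num)).le

lemma lam_one_mod : (lam : eis) - 1 ∈ (sp 2 : Ideal eis) := by
  rw [Ideal.mem_span_singleton']
  exact ⟨omr, by unfold lam; ring⟩

lemma lam_norm : (lam : eis) * cj lam = 3 := by
  have h := norm_rep' 1 2
  have e : ((1 : ℤ) : eis) + ((2 : ℤ) : eis) * omr = lam := by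
    unfold lam; push_cast; ring
  rw [e] at h
  rw [h]
  push_cast
  norm_num

lemma t4_lam {t : eis → ℂ} (h : Th4 t) : t lam = -1 := by
  refine h.neg lam lam_one_mod ?_
  rw [lam_norm, Ideal.mem_span_singleton']
  exact ⟨1, by norm_num⟩

lemma lam_cop_four : IsCoprime (lam : eis) 4 := ⟨lam, 1, by linear_combination lam_sq⟩

lemma four_ne : (4 : eis) ≠ 0 := by
  intro h
  have := congrArg (fun t : eis => (t : ℂ)) h
  push_cast at this
  norm_num at this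

lemma sum_shift {M : eis} [Fintype (eis ⧸ (sp M : Ideal eis))] {r : eis} (hr : IsCoprime r M)
    (G : eis → ℂ) (hG : ∀ x y, x - y ∈ (sp M : Ideal eis) → G x = G y) :
    ∑ x : eis ⧸ (sp M : Ideal eis), G x.out = ∑ x : eis ⧸ (sp M : Ideal eis), G (r * x.out) := by
  refine sum_rep (fun x : eis ⧸ (sp M : Ideal eis) => r * x.out) ?_ G hG
  obtain ⟨u, hu⟩ := (unit_iff (c := M) r).2 hr
  have e : (fun x : eis ⧸ (sp M : Ideal eis) => Ideal.Quotient.mk (sp M) (r * x.out)) =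
      fun x => (u : eis ⧸ (sp M : Ideal eis)) * x := by
    funext x
    rw [map_mul, Ideal.Quotient.mk_out, hu]
  rw [e]
  exact u.mulLeft_bijective

end Pool.Agent.W2helper66.TQ
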