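import Mathlib
import Pool.Agent.W2helper66.TQ.B5a

/-!
# Piece B5 of project TQ: the sums over the classes modulo `4 c`
-/

set_option autoImplicit false

open Complex Filter Topology IsDedekindDomain
open scoped PeriodPair

namespace Pool.Agent.W2helper66.TQ

open H667R3 Pool.Agent.Y696 Pool.Agent.W192.HK Pool.Agent.TH936.CM Pool.Agent.TH936.PU
open Pool.Agent.W2helper24.TQ

variable {L : PeriodPair} {Ω : ℂ} {c : eis}

/-- the character modulo `4 c` -/
noncomputable def ch (t4 : eis → ℂ) (η : MulChar (eis ⧸ (sp c : Ideal eis)) ℂ) (x : eis) : ℂ :=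
  t4 x * (starRingEnd ℂ) (et η x)

lemma mem_of_dvd {x m n : eis} (h : m ∣ n) (hx : x ∈ (sp n : Ideal eis)) : x ∈ (sp m : Ideal eis) := by
  rw [Ideal.mem_span_singleton] at hx ⊢
  exact h.trans hx

lemma ch_per {t4 : eis → ℂ} (h4 : Th4 t4) (η : MulChar (eis ⧸ (sp c : Ideal eis)) ℂ) {x y : eis}
    (h : x - y ∈ (sp (4 * c) : Ideal eis)) : ch t4 η x = ch t4 η y := by
  unfold ch
  rw [h4.per x y (mem_of_dvd (dvd_mul_right 4 c) h), et_per (mem_of_dvd (dvd_mul_left c 4) h)]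

lemma ch_mul {t4 : eis → ℂ} (h4 : Th4 t4) (η : MulChar (eis ⧸ (sp c : Ideal eis)) ℂ) (x y : eis) :
    ch t4 η (x * y) = ch t4 η x * ch t4 η y := by
  unfold ch
  rw [h4.mul, et_mul, map_mul]
  ring

lemma ch_two {t4 : eis → ℂ} (h4 : Th4 t4) (η : MulChar (eis ⧸ (sp c : Ideal eis)) ℂ) {x : eis}
    (h : x ∈ (sp 2 : Ideal eis)) : ch t4 η x = 0 := by
  unfold ch
  rw [h4.zero x h, zero_mul]

lemma two_dvd_four (c : eis) : (2 : eis) ∣ 4 * c := ⟨2 * c, by ring⟩

lemma ch_om {t4 : eis → ℂ} (h4 : Th4 t4) {η : MulChar (eis ⧸ (sp c : Ideal eis)) ℂ}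
    (hη : ∀ u : eis, IsUnit u → et η u = 1) (x : eis) : ch t4 η (omr * x) = om * ch t4 η x := by
  unfold ch
  rw [h4.om, et_mul, hη _ omr_unit, one_mul]
  ring

lemma ch_om_pow {t4 : eis → ℂ} (h4 : Th4 t4) {η : MulChar (eis ⧸ (sp c : Ideal eis)) ℂ}
    (hη : ∀ u : eis, IsUnit u → et η u = 1) (j : ℕ) (x : eis) :
    ch t4 η (omr ^ j * x) = om ^ j * ch t4 η x := by
  induction j with
  | zero => simp
  | succ n ih => rw [pow_succ', mul_assoc, ch_om h4 hη, ih, pow_succ', mul_assoc]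

lemma xo_ch (hc : c ≠ 0) {t4 : eis → ℂ} (h4 : Th4 t4)
    {η : MulChar (eis ⧸ (sp c : Ideal eis)) ℂ} (hη : ∀ u : eis, IsUnit u → et η u = 1)
    [Fintype (eis ⧸ (sp (4 * c) : Ideal eis))] : Xo (4 * c) (ch t4 η) := by
  refine ⟨fun x y h => ch_per h4 η h, ch_mul h4 η,
    fun x hx => ch_two h4 η (mem_of_dvd (two_dvd_four c) hx), fun x => ?_, ?_⟩
  · unfold ch
    rw [norm_mul, RCLike.norm_conj]
    exact mul_le_one₀ (t4_bd h4 x) (norm_nonneg _) (et_bd hc x)
  · have h1 := sum_shift (M := 4 * c) (r := omr) (by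
      obtain ⟨w, hw⟩ := omr_unit.exists_right_inv
      exact ⟨w, 0, by linear_combination hw⟩) (ch t4 η) (fun x y h => ch_per h4 η h)
    simp only [ch_om h4 hη] at h1
    rw [← Finset.mul_sum] at h1
    have h2 : (1 - om) * ∑ x : eis ⧸ (sp (4 * c) : Ideal eis), ch t4 η x.out = 0 := by
      linear_combination h1
    refine (mul_eq_zero.1 h2).resolve_left ?_
    intro h3
    have h4' : om = 1 := by linear_combination -h3
    have := om_im
    rw [h4'] at this
    simp at this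

/-- the value of the elliptic function -/
noncomputable def XX (L : PeriodPair) (Ω : ℂ) (c x : eis) : ℂ := ℘[L] (Ω * x / ((4 * c : eis) : ℂ))

lemma XX_per (hL : IsLat L eis Ω) (hc : c ≠ 0) {x y : eis} (h : x - y ∈ (sp (4 * c) : Ideal eis)) :
    XX L Ω c x = XX L Ω c y := by
  unfold XX
  apply wp_per
  rw [← div_mem_iff hL (mul_ne_zero four_ne hc)] at h
  convert h using 1
  push_cast
  ring

lemma XX_om (hL : IsLat L eis Ω) (x : eis) : XX L Ω c (omr * x) = om * XX L Ω c x := by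
  unfold XX
  have e : Ω * ((omr * x : eis) : ℂ) / ((4 * c : eis) : ℂ) =
      (omr : ℂ) * (Ω * x / ((4 * c : eis) : ℂ)) := by
    push_cast
    ring
  rw [e, wp_unit hL omr_unit, omr_coe]
  congr 1
  have : om ^ 2 * om = 1 := by linear_combination om_cube
  exact (eq_inv_of_mul_eq_one_right this).symm

/-- the terms of the sum -/
noncomputable def ff (L : PeriodPair) (Ω : ℂ) (t4 : eis → ℂ)
    (η : MulChar (eis ⧸ (sp c : Ideal eis)) ℂ) (x : eis) : ℂ := ch t4 η x / XX L Ω c x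

lemma ff_per (hL : IsLat L eis Ω) (hc : c ≠ 0) {t4 : eis → ℂ} (h4 : Th4 t4)
    (η : MulChar (eis ⧸ (sp c : Ideal eis)) ℂ) {x y : eis}
    (h : x - y ∈ (sp (4 * c) : Ideal eis)) : ff L Ω t4 η x = ff L Ω t4 η y := by
  unfold ff
  rw [ch_per h4 η h, XX_per hL hc h]

lemma ff_om (hL : IsLat L eis Ω) {t4 : eis → ℂ} (h4 : Th4 t4)
    {η : MulChar (eis ⧸ (sp c : Ideal eis)) ℂ} (hη : ∀ u : eis, IsUnit u → et η u = 1) (x : eis) :
    ff L Ω t4 η (omr * x) = ff L Ω t4 η x := by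
  unfold ff
  rw [ch_om h4 hη, XX_om hL, mul_div_mul_left _ _ om_ne]

lemma i0_per {x y : eis} (h : x - y ∈ (sp (4 * c) : Ideal eis)) : i0 x = i0 y :=
  i0_congr (mem_of_dvd (two_dvd_four c) h)

/-- the sum is three times the sum over the classes congruent to one modulo two -/
lemma sum_three (hL : IsLat L eis Ω) (hc : c ≠ 0) {t4 : eis → ℂ} (h4 : Th4 t4)
    {η : MulChar (eis ⧸ (sp c : Ideal eis)) ℂ} (hη : ∀ u : eis, IsUnit u → et η u = 1)
    [Fintype (eis ⧸ (sp (4 * c) : Ideal eis))] :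
    ∑ x : eis ⧸ (sp (4 * c) : Ideal eis), ff L Ω t4 η x.out =
      3 * ∑ x : eis ⧸ (sp (4 * c) : Ideal eis), i0 x.out * ff L Ω t4 η x.out := by
  have hom : IsCoprime omr (4 * c) := by
    obtain ⟨w, hw⟩ := omr_unit.exists_right_inv
    exact ⟨w, 0, by linear_combination hw⟩
  have hom2 : IsCoprime (omr ^ 2) (4 * c) := hom.pow_left
  have hG : ∀ x y : eis, x - y ∈ (sp (4 * c) : Ideal eis) →
      i0 x * ff L Ω t4 η x = i0 y * ff L Ω t4 η y := fun x y h => by
    rw [i0_per h, ff_per hL hc h4 η h]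
  have h1 := sum_shift hom (fun x => i0 x * ff L Ω t4 η x) hG
  have h2 := sum_shift hom2 (fun x => i0 x * ff L Ω t4 η x) hG
  have e2 : ∀ x : eis, ff L Ω t4 η (omr ^ 2 * x) = ff L Ω t4 η x := fun x => by
    rw [pow_two, mul_assoc, ff_om hL h4 hη, ff_om hL h4 hη]
  simp only [ff_om hL h4 hη] at h1
  simp only [e2] at h2
  have h3 : ∀ x : eis ⧸ (sp (4 * c) : Ideal eis), ff L Ω t4 η x.out =
      i0 x.out * ff L Ω t4 η x.out + i0 (omr * x.out) * ff L Ω t4 η x.out +
        i0 (omr ^ 2 * x.out) * ff L Ω t4 η x.out := by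
    intro x
    by_cases hx : x.out ∈ (sp 2 : Ideal eis)
    · have : ff L Ω t4 η x.out = 0 := by
        unfold ff
        rw [ch_two h4 η hx, zero_div]
      rw [this]
      ring
    · rw [← add_mul, ← add_mul, i0_sum _ hx, one_mul]
  calc ∑ x : eis ⧸ (sp (4 * c) : Ideal eis), ff L Ω t4 η x.out =
      ∑ x : eis ⧸ (sp (4 * c) : Ideal eis), (i0 x.out * ff L Ω t4 η x.out +
        i0 (omr * x.out) * ff L Ω t4 η x.out + i0 (omr ^ 2 * x.out) * ff L Ω t4 η x.out) :=
        Finset.sum_congr rfl fun x _ => h3 x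
    _ = _ := by
        rw [Finset.sum_add_distrib, Finset.sum_add_distrib, ← h1, ← h2]
        ring

/-- the sum of the character over the classes congruent to one modulo two -/
lemma sum_zero (hc2 : IsCoprime c 2) {t4 : eis → ℂ} (h4 : Th4 t4)
    (η : MulChar (eis ⧸ (sp c : Ideal eis)) ℂ) [Fintype (eis ⧸ (sp (4 * c) : Ideal eis))] :
    ∑ x : eis ⧸ (sp (4 * c) : Ideal eis), i0 x.out * ch t4 η x.out = 0 := by
  have hc4 : IsCoprime (4 : eis) c := by
    have : (4 : eis) = 2 * 2 := by norm_num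
    rw [this]
    exact IsCoprime.mul_left hc2.symm hc2.symm
  obtain ⟨s, t, hst⟩ := hc4
  set r : eis := lam * t * c + s * 4 with hr
  have hr4 : r - lam ∈ (sp 4 : Ideal eis) := by
    rw [Ideal.mem_span_singleton']
    exact ⟨s - lam * s, by rw [hr]; linear_combination (-lam) * hst⟩
  have hrc : r - 1 ∈ (sp c : Ideal eis) := by
    rw [Ideal.mem_span_singleton']
    exact ⟨lam * t - t, by rw [hr]; linear_combination -hst⟩
  have hcop : IsCoprime r (4 * c) := by
    refine IsCoprime.mul_right ?_ ?_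
    · rw [Ideal.mem_span_singleton'] at hr4
      obtain ⟨b, hb⟩ := hr4
      obtain ⟨u, w, huw⟩ := lam_cop_four
      exact ⟨u, w - u * b, by linear_combination huw - u * hb⟩
    · rw [Ideal.mem_span_singleton'] at hrc
      obtain ⟨b, hb⟩ := hrc
      exact ⟨1, -b, by linear_combination -hb⟩
  have h2 : r - 1 ∈ (sp 2 : Ideal eis) := by
    have h3 := add_mem (mem_of_dvd (m := 2) (n := 4) ⟨2, by norm_num⟩ hr4) lam_one_mod
    rwa [sub_add_sub_cancel] at h3
  have hchr : ch t4 η r = -1 := by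
    unfold ch
    rw [h4.per r lam hr4, t4_lam h4, et_per hrc, et_one, map_one, mul_one]
  have h1 := sum_shift hcop (fun x => i0 x * ch t4 η x) (fun x y h => by
    rw [i0_per h, ch_per h4 η h])
  have e : ∀ x : eis, i0 (r * x) * ch t4 η (r * x) = -(i0 x * ch t4 η x) := by
    intro x
    rw [ch_mul h4, hchr, i0_congr (x := r * x) (y := x) (by
      have := (sp 2 : Ideal eis).mul_mem_right x h2
      convert this using 1
      ring)]
    ring
  simp only [e] at h1
  rw [Finset.sum_neg_distrib] at h1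
  linear_combination (1 / 2 : ℂ) * h1

/-- the classes modulo four -/
lemma four_sum (F : eis → ℂ) (hF0 : ∀ x, x - 1 ∉ (sp 2 : Ideal eis) → F x = 0)
    (hper : ∀ x y : eis, x - y ∈ (sp (4 * 1) : Ideal eis) → F x = F y)
    [Fintype (eis ⧸ (sp (4 * 1) : Ideal eis))] :
    ∑ y : eis ⧸ (sp (4 * 1) : Ideal eis), F y.out = F 1 + F (-1) + F lam + F (-lam) := by
  classical
  set g : Fin 4 → eis := ![1, -1, lam, -lam] with hg
  have em : ∀ x : eis, x ∈ (sp (4 * 1) : Ideal eis) ↔ x ∈ (sp 4 : Ideal eis) := by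
    intro x; rw [mul_one]
  have hco : ∀ i : Fin 4, g i = ((![1, -1, 1, -1] i : ℤ) : eis) + ((![0, 0, 2, -2] i : ℤ) : eis) * omr := by
    intro i
    fin_cases i <;> simp [hg, lam] <;> ring
  have hinj : Function.Injective (fun i : Fin 4 => Ideal.Quotient.mk (sp (4 * 1) : Ideal eis) (g i)) := by
    intro i j hij
    have h1 : g i - g j ∈ (sp (4 * 1) : Ideal eis) := by
      rw [← Ideal.Quotient.mk_eq_mk_iff_sub_mem]
      exact hij
    rw [em, hco, hco] at h1
    have e : ((![1, -1, 1, -1] i : ℤ) : eis) + ((![0, 0, 2, -2] i : ℤ) : eis) * omr -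
        (((![1, -1, 1, -1] j : ℤ) : eis) + ((![0, 0, 2, -2] j : ℤ) : eis) * omr) =
        ((![1, -1, 1, -1] i - ![1, -1, 1, -1] j : ℤ) : eis) +
          ((![0, 0, 2, -2] i - ![0, 0, 2, -2] j : ℤ) : eis) * omr := by
      push_cast
      ring
    rw [e, mem_four] at h1
    clear e hij
    revert h1
    revert i j
    decide
  have h1 : ∑ i, F (g i) = F 1 + F (-1) + F lam + F (-lam) := by
    rw [Fin.sum_univ_four]
    simp [hg]
  rw [← h1]
  have h2 : ∑ i, F (g i) = ∑ y ∈ Finset.univ.image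
      (fun i : Fin 4 => Ideal.Quotient.mk (sp (4 * 1) : Ideal eis) (g i)), F y.out := by
    rw [Finset.sum_image hinj.injOn]
    exact Finset.sum_congr rfl fun i _ => hper _ _ (out_mk _ _)
  rw [h2]
  symm
  refine Finset.sum_subset (Finset.subset_univ _) fun y _ hy => hF0 _ ?_
  intro hy1
  apply hy
  rw [Finset.mem_image]
  obtain ⟨a, b, hab⟩ := eis_rep y.out
  have hab1 := hy1
  rw [hab] at hab1
  obtain ⟨ha, hb⟩ := (mod_two_iff a b).1.1 hab1
  obtain ⟨i, hi1, hi2⟩ : ∃ i : Fin 4, 4 ∣ (![1, -1, 1, -1] i : ℤ) - a ∧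
      4 ∣ (![0, 0, 2, -2] i : ℤ) - b := by
    have h3 : a % 4 = 1 ∨ a % 4 = 3 := by omega
    have h4 : b % 4 = 0 ∨ b % 4 = 2 := by omega
    rcases h3 with h3 | h3 <;> rcases h4 with h4 | h4
    · refine ⟨0, ?_, ?_⟩ <;> simp <;> omega
    · refine ⟨2, ?_, ?_⟩ <;> simp <;> omega
    · refine ⟨1, ?_, ?_⟩ <;> simp <;> omega
    · refine ⟨3, ?_, ?_⟩ <;> simp <;> omega
  refine ⟨i, Finset.mem_univ _, ?_⟩
  rw [← Ideal.Quotient.mk_out y, Ideal.Quotient.mk_eq_mk_iff_sub_mem, em, hab, hco]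
  have e : ((![1, -1, 1, -1] i : ℤ) : eis) + ((![0, 0, 2, -2] i : ℤ) : eis) * omr -
      ((a : eis) + b * omr) = ((![1, -1, 1, -1] i - a : ℤ) : eis) +
        ((![0, 0, 2, -2] i - b : ℤ) : eis) * omr := by
    push_cast
    ring
  rw [e, mem_four]
  exact ⟨hi1, hi2⟩

end Pool.Agent.W2helper66.TQ
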