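import Mathlib
import Pool.Agent.W2helper66.TQ.B5b

/-!
# Piece B5 of project TQ: the limits and the values above three
-/

set_option autoImplicit false

open Complex Filter Topology IsDedekindDomain
open scoped PeriodPair

namespace Pool.Agent.W2helper66.TQ

open H667R3 Pool.Agent.Y696 Pool.Agent.W192.HK Pool.Agent.TH936.CM Pool.Agent.TH936.PU
open Pool.Agent.W2helper24.TQ

variable {L : PeriodPair} {Ω : ℂ} {c : eis}

section val

variable {Γ : Type} [LinearOrderedCommGroupWithZero Γ] {v : Valuation ℂ Γ}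

lemma v2 (hv : v 3 < 1) : v 2 = 1 := by
  have h1 : v 2 ≤ 1 := by
    have := v_nat (v := v) 2
    simpa using this
  refine le_antisymm h1 ?_
  by_contra h
  rw [not_le] at h
  have h2 : v ((3 : ℂ) - 2) < 1 := v_sub_lt hv h
  have h3 : (3 : ℂ) - 2 = 1 := by norm_num
  rw [h3, map_one] at h2
  exact lt_irrefl _ h2

lemma v4 (hv : v 3 < 1) : v 4 = 1 := v_four (v2 hv)

lemma lam_sq_c : (lam : ℂ) ^ 2 = -3 := by
  have := congrArg (fun t : eis => (t : ℂ)) lam_sq
  push_cast at this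
  exact this

lemma v_lam_sq : v (lam : ℂ) ^ 2 = v 3 := by
  rw [← map_pow, lam_sq_c, v.map_neg]

lemma v_lam_lt (hv : v 3 < 1) : v (lam : ℂ) < 1 := by
  rw [← v_lam_sq, ← map_pow] at hv
  exact lt_one_of_pow two_ne_zero hv

lemma v_lam_ne : v (lam : ℂ) ≠ 0 := by
  rw [Ne, Valuation.zero_iff]
  exact coe_ne lam_ne

lemma v_cop3 (hv : v 3 < 1) {r : eis} (h : IsCoprime r 3) : v (r : ℂ) = 1 := by
  obtain ⟨a, b, hab⟩ := h
  refine le_antisymm (v_eis r) ?_
  by_contra hlt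
  rw [not_le] at hlt
  have h1 : (a : ℂ) * r + b * 3 = 1 := by
    have := congrArg (fun t : eis => (t : ℂ)) hab
    push_cast at this
    exact this
  have h2 : v ((a : ℂ) * r + b * 3) < 1 := v_add_lt (v_mul_lt (v_eis a) hlt) (v_mul_lt (v_eis b) hv)
  rw [h1, map_one] at h2
  exact lt_irrefl _ h2

lemma v_root3 (hv : v 3 < 1) {x : ℂ} {k : ℕ} (hx : x ^ (3 ^ k) = 1) : v (x - 1) < 1 := by
  induction k generalizing x with
  | zero =>
    rw [pow_zero, pow_one] at hx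
    rw [hx, sub_self, map_zero]
    exact zero_lt_one
  | succ k ih =>
    have h1 : (x ^ 3) ^ (3 ^ k) = 1 := by rw [← pow_mul, ← pow_succ', hx]
    have h2 := ih h1
    have hx1 : v x ≤ 1 := (v_one_of_pow (n := 3 ^ (k + 1)) (by positivity) (by rw [hx, map_one])).le
    have e : (x - 1) ^ 3 = (x ^ 3 - 1) + 3 * (x * (1 - x)) := by ring
    have h3 : v ((x - 1) ^ 3) < 1 := by
      rw [e]
      refine v_add_lt h2 ?_
      rw [mul_comm]
      exact v_mul_lt (v_mul_le hx1 (v_sub_le (by rw [map_one]) hx1)) hv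
    exact lt_one_of_pow three_ne_zero h3

lemma v_t4 {t4 : eis → ℂ} (h4 : Th4 t4) {x : eis} (hx : x ∉ (sp 2 : Ideal eis)) : v (t4 x) = 1 :=
  v_one_of_pow (n := 6) (by norm_num) (by rw [t4_six h4 hx, map_one])

lemma v_t4_le {t4 : eis → ℂ} (h4 : Th4 t4) (x : eis) : v (t4 x) ≤ 1 := by
  by_cases hx : x ∈ (sp 2 : Ideal eis)
  · rw [h4.zero x hx, map_zero]
    exact zero_le_one
  · exact (v_t4 h4 hx).le

lemma v_i0_le (x : eis) : v (i0 x) ≤ 1 := by
  by_cases hx : x - 1 ∈ (sp 2 : Ideal eis)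
  · rw [i0_one hx, map_one]
  · rw [i0_zero hx, map_zero]
    exact zero_le_one

lemma et_root {η : MulChar (eis ⧸ (sp c : Ideal eis)) ℂ} {k : ℕ} (hη : η ^ (3 ^ k) = 1) {x : eis}
    (hx : IsCoprime x c) : ((starRingEnd ℂ) (et η x)) ^ (3 ^ k) = 1 := by
  have h2 : IsUnit (Ideal.Quotient.mk (sp c : Ideal eis) x) := (unit_iff x).2 hx
  unfold et
  rw [← map_pow, ← MulChar.pow_apply' _ (by positivity), hη, MulChar.one_apply h2, map_one]

lemma et_one_cop {x : eis} (hx : IsCoprime x c) :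
    et (1 : MulChar (eis ⧸ (sp c : Ideal eis)) ℂ) x = 1 := by
  unfold et
  exact MulChar.one_apply ((unit_iff x).2 hx)

end val

/-- the limit of the regularized sum -/
theorem key_lim (hL : IsLat L eis Ω) {tl t4 : eis → ℂ} (h4 : Th4 t4) (heo : Eo lam tl)
    (hc : c ≠ 0) (hc3 : IsCoprime c 3) {η : MulChar (eis ⧸ (sp c : Ideal eis)) ℂ}
    (hη : ∀ u : eis, IsUnit u → et η u = 1) [Fintype (eis ⧸ (sp (4 * c) : Ideal eis))] {τ : ℂ}
    (hHH : ∀ [Fintype (eis ⧸ (sp lam : Ideal eis))] (w : ℂ), ℘[L] w ≠ 0 →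
      HH L Ω lam tl w = -τ / ℘[L] w)
    (hne : ∀ x : eis, x ∉ (sp (4 * c) : Ideal eis) → XX L Ω c x ≠ 0) :
    Tendsto (SS (fun α => tl α * ch t4 η α)) (𝓝[>] 0)
      (𝓝 (Ω / (lam * ((4 * c : eis) : ℂ)) * (tl (4 * c) * ch t4 η lam) *
        (-τ * ∑ x : eis ⧸ (sp (4 * c) : Ideal eis), ff L Ω t4 η x.out))) := by
  have hc4 : (4 : eis) * c ≠ 0 := mul_ne_zero four_ne hc
  have : Finite (eis ⧸ (sp lam : Ideal eis)) := finite_q lam_ne
  have : Fintype (eis ⧸ (sp lam : Ideal eis)) := Fintype.ofFinite _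
  have : Finite (eis ⧸ (sp (lam * (4 * c)) : Ideal eis)) := finite_q (mul_ne_zero lam_ne hc4)
  have : Fintype (eis ⧸ (sp (lam * (4 * c)) : Ideal eis)) := Fintype.ofFinite _
  have hcop : IsCoprime (lam : eis) (4 * c) := IsCoprime.mul_right lam_cop_four (cop_lam hc3).symm
  have h1 := lim_SS hL lam_ne hc4 hcop heo (xo_ch hc h4 hη)
  convert h1 using 3
  rw [Finset.mul_sum]
  refine Finset.sum_congr rfl fun x _ => ?_
  by_cases hx : x.out ∈ (sp (4 * c) : Ideal eis)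
  · unfold ff
    rw [ch_two h4 η (mem_of_dvd (two_dvd_four c) hx), zero_div, zero_mul, mul_zero]
  · have h2 := hne _ hx
    unfold XX at h2
    rw [hHH _ h2]
    unfold ff XX
    ring

/-- the sum over the classes congruent to one modulo two -/
noncomputable def DD (L : PeriodPair) (Ω : ℂ) (t4 : eis → ℂ)
    (η : MulChar (eis ⧸ (sp c : Ideal eis)) ℂ) [Fintype (eis ⧸ (sp (4 * c) : Ideal eis))] : ℂ :=
  ∑ x : eis ⧸ (sp (4 * c) : Ideal eis), i0 x.out * ff L Ω t4 η x.out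

lemma DD_eq (hc2 : IsCoprime c 2) {t4 : eis → ℂ} (h4 : Th4 t4)
    (η : MulChar (eis ⧸ (sp c : Ideal eis)) ℂ) [Fintype (eis ⧸ (sp (4 * c) : Ideal eis))] :
    DD L Ω t4 η = ∑ x : eis ⧸ (sp (4 * c) : Ideal eis),
      i0 x.out * (ch t4 η x.out * ((XX L Ω c x.out)⁻¹ - 1)) := by
  have h1 := sum_zero hc2 h4 η
  unfold DD
  rw [← sub_zero (∑ x : eis ⧸ (sp (4 * c) : Ideal eis), i0 x.out * ff L Ω t4 η x.out), ← h1,
    ← Finset.sum_sub_distrib]
  refine Finset.sum_congr rfl fun x _ => ?_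
  unfold ff
  ring

section val

variable {Γ : Type} [LinearOrderedCommGroupWithZero Γ] {v : Valuation ℂ Γ}

lemma DD_sub (hv : v 3 < 1) (hc2 : IsCoprime c 2) {t4 : eis → ℂ} (h4 : Th4 t4)
    {η : MulChar (eis ⧸ (sp c : Ideal eis)) ℂ} {k : ℕ} (hη : η ^ (3 ^ k) = 1)
    [Fintype (eis ⧸ (sp (4 * c) : Ideal eis))]
    (hX : ∀ x : eis, x ∉ (sp (4 * c) : Ideal eis) →
      v (XX L Ω c x) = 1 ∧ v (XX L Ω c x - 1) ≤ v (lam : ℂ)) :
    v (DD L Ω t4 η - DD L Ω t4 (1 : MulChar (eis ⧸ (sp c : Ideal eis)) ℂ)) < v (lam : ℂ) := by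
  rw [DD_eq hc2 h4, DD_eq hc2 h4, ← Finset.sum_sub_distrib]
  refine v.map_sum_lt v_lam_ne fun x _ => ?_
  have e : i0 x.out * (ch t4 η x.out * ((XX L Ω c x.out)⁻¹ - 1)) -
      i0 x.out * (ch t4 (1 : MulChar (eis ⧸ (sp c : Ideal eis)) ℂ) x.out *
        ((XX L Ω c x.out)⁻¹ - 1)) =
      i0 x.out * t4 x.out * ((starRingEnd ℂ) (et η x.out) -
        (starRingEnd ℂ) (et (1 : MulChar (eis ⧸ (sp c : Ideal eis)) ℂ) x.out)) *
        ((XX L Ω c x.out)⁻¹ - 1) := by
    unfold ch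
    ring
  rw [e]
  have hpos : (0 : Γ) < v (lam : ℂ) := zero_lt_iff.2 v_lam_ne
  by_cases hx : x.out ∈ (sp (4 * c) : Ideal eis)
  · rw [h4.zero _ (mem_of_dvd (two_dvd_four c) hx), mul_zero, zero_mul, zero_mul, map_zero]
    exact hpos
  by_cases hxc : IsCoprime x.out c
  · rw [et_one_cop hxc, map_one]
    obtain ⟨h1, h2⟩ := hX _ hx
    have h0 := ne_of_v h1
    have h3 : (XX L Ω c x.out)⁻¹ - 1 = -((XX L Ω c x.out - 1) / XX L Ω c x.out) := by
      field_simp
      ring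
    have h5 : v ((XX L Ω c x.out)⁻¹ - 1) ≤ v (lam : ℂ) := by
      rw [h3, v.map_neg, map_div₀, h1, div_one]
      exact h2
    have h6 : v (i0 x.out * t4 x.out * ((starRingEnd ℂ) (et η x.out) - 1)) < 1 :=
      v_mul_lt (v_mul_le (v_i0_le _) (v_t4_le h4 _)) (v_root3 hv (et_root hη hxc))
    rw [map_mul]
    calc v (i0 x.out * t4 x.out * ((starRingEnd ℂ) (et η x.out) - 1)) *
        v ((XX L Ω c x.out)⁻¹ - 1) ≤
        v (i0 x.out * t4 x.out * ((starRingEnd ℂ) (et η x.out) - 1)) * v (lam : ℂ) :=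
          mul_le_mul' le_rfl h5
      _ < 1 * v (lam : ℂ) := mul_lt_mul_of_pos_right h6 hpos
      _ = v (lam : ℂ) := one_mul _
  · rw [(et_zero_iff (η := η) _).2 hxc,
      (et_zero_iff (η := (1 : MulChar (eis ⧸ (sp c : Ideal eis)) ℂ)) _).2 hxc, sub_self, mul_zero,
      zero_mul, map_zero]
    exact hpos

/-- the points of order four -/
lemma four_val (hC : CurM L Ω) {x : eis} (hx : x - 1 ∈ (sp 2 : Ideal eis)) :
    (℘[L] (2 * (Ω * x / ((4 * 1 : eis) : ℂ)))) ^ 3 = 1 ∧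
    ℘[L] (Ω * x / ((4 * 1 : eis) : ℂ)) ^ 2 -
      2 * ℘[L] (2 * (Ω * x / ((4 * 1 : eis) : ℂ))) * ℘[L] (Ω * x / ((4 * 1 : eis) : ℂ)) -
      2 * ℘[L] (2 * (Ω * x / ((4 * 1 : eis) : ℂ))) ^ 2 = 0 := by
  have hL := hC.lat
  have c4 : ((4 * 1 : eis) : ℂ) = 4 := by push_cast; rw [mul_one]; rfl
  rw [c4]
  set w := Ω * x / (4 : ℂ) with hw
  have hx2 : x ∉ (sp 2 : Ideal eis) := by
    intro h
    have h1 : (1 : eis) ∈ (sp 2 : Ideal eis) := by
      have := sub_mem h hx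
      rwa [sub_sub_cancel] at this
    have := (mem_two 1 0).1 (by push_cast; simpa using h1)
    omega
  have h2w : 2 * w ∉ L.lattice := by
    have h3 := div_mem_iff hL two_ne x
    have e : Ω * x / ((2 : eis) : ℂ) = 2 * w := by
      rw [hw]
      have : ((2 : eis) : ℂ) = 2 := rfl
      rw [this]
      ring
    rw [e] at h3
    rwa [h3]
  have h4w : 2 * (2 * w) ∈ L.lattice := by
    have e : 2 * (2 * w) = Ω * x := by
      rw [hw]
      ring
    rw [e]
    exact (hL.mem _).2 ⟨x, rfl⟩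
  have h5 := (two_mem_iff h2w).1 h4w
  have h6 := L.derivWeierstrassP_sq (2 * w) h2w
  rw [h5, hC.g2, hC.g3] at h6
  have hz : ℘[L] (2 * w) ^ 3 = 1 := by linear_combination (-1 / 4 : ℂ) * h6
  have hd := wp_dupl h2w
  have h0 := two_mul_notMem_of L h2w
  rw [L.derivWeierstrassP_sq w h0, hC.g2, hC.g3] at hd
  refine ⟨hz, ?_⟩
  set z := ℘[L] (2 * w)
  set X := ℘[L] w
  have h7 : (X ^ 2 - 2 * z * X - 2 * z ^ 2) ^ 2 = 0 := by
    linear_combination -hd + (8 * X + 4 * z) * hz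
  exact pow_eq_zero_iff two_ne_zero |>.1 h7

lemma DD_one (hC : CurM L Ω) {t4 : eis → ℂ} (h4 : Th4 t4)
    [Fintype (eis ⧸ (sp (4 * 1) : Ideal eis))]
    (hne : ∀ x : eis, x ∉ (sp (4 * 1) : Ideal eis) → XX L Ω 1 x ≠ 0) :
    ∃ z : ℂ, z ^ 3 = 1 ∧
      (DD L Ω t4 (1 : MulChar (eis ⧸ (sp 1 : Ideal eis)) ℂ)) ^ 2 * z ^ 2 = 12 := by
  have hL := hC.lat
  have c4 : ((4 * 1 : eis) : ℂ) = 4 := by push_cast; rw [mul_one]; rfl
  have h1 : ∀ x : eis, et (1 : MulChar (eis ⧸ (sp 1 : Ideal eis)) ℂ) x = 1 := fun x =>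
    et_one_cop isCoprime_one_right
  have m1 : (1 : eis) - 1 ∈ (sp 2 : Ideal eis) := by rw [sub_self]; exact Submodule.zero_mem _
  have mm1 : (-1 : eis) - 1 ∈ (sp 2 : Ideal eis) := by
    rw [Ideal.mem_span_singleton']; exact ⟨-1, by ring⟩
  have ml := lam_one_mod
  have mml : -lam - 1 ∈ (sp 2 : Ideal eis) := by
    have := (sp 2 : Ideal eis).add_mem (neg_mem ml) mm1
    convert this using 1
    ring
  have t1 : t4 1 = 1 := h4.one 1 m1 (by
    have : (1 : eis) * cj 1 - 1 = 0 := by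
      have := norm_rep' 1 0
      push_cast at this
      simp at this
      rw [one_mul, this, sub_self]
    rw [this]
    exact Submodule.zero_mem _)
  have tm1 : t4 (-1) = 1 := h4.one (-1) mm1 (by
    have : (-1 : eis) * cj (-1) - 1 = 0 := by
      have := norm_rep' (-1) 0
      push_cast at this
      simp at this
      rw [neg_mul, one_mul, this]
      ring
    rw [this]
    exact Submodule.zero_mem _)
  have tl := t4_lam h4
  have tml : t4 (-lam) = -1 := by rw [← neg_one_mul, h4.mul, tm1, tl, one_mul]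
  have hneg : ∀ x : eis, XX L Ω 1 (-x) = XX L Ω 1 x := by
    intro x
    unfold XX
    rw [← L.weierstrassP_neg]
    congr 1
    push_cast
    ring
  have hD : DD L Ω t4 (1 : MulChar (eis ⧸ (sp 1 : Ideal eis)) ℂ) =
      2 / XX L Ω 1 1 - 2 / XX L Ω 1 lam := by
    unfold DD
    rw [four_sum (fun x => i0 x * ff L Ω t4 (1 : MulChar (eis ⧸ (sp 1 : Ideal eis)) ℂ) x)
      (fun x hx => by rw [i0_zero hx, zero_mul])
      (fun x y h => by rw [i0_per h, ff_per hL one_ne_zero h4 _ h])]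
    unfold ff ch
    rw [i0_one m1, i0_one mm1, i0_one ml, i0_one mml, h1, h1, h1, h1, t1, tm1, tl, tml, hneg, hneg,
      map_one]
    ring
  obtain ⟨z1, q1⟩ := four_val hC m1
  obtain ⟨z2, q2⟩ := four_val hC ml
  have hzz : ℘[L] (2 * (Ω * (lam : ℂ) / ((4 * 1 : eis) : ℂ))) =
      ℘[L] (2 * (Ω * ((1 : eis) : ℂ) / ((4 * 1 : eis) : ℂ))) := by
    apply wp_per
    have e : 2 * (Ω * (lam : ℂ) / ((4 * 1 : eis) : ℂ)) -
        2 * (Ω * ((1 : eis) : ℂ) / ((4 * 1 : eis) : ℂ)) = Ω * (omr : ℂ) := by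
      rw [c4]
      unfold lam
      push_cast
      have : ((2 : eis) : ℂ) = 2 := rfl
      try rw [this]
      ring
    rw [e]
    exact (hL.mem _).2 ⟨omr, rfl⟩
  rw [hzz] at z2 q2
  have x1 : (1 : eis) ∉ (sp (4 * 1) : Ideal eis) := by
    rw [mul_one]
    have := mem_four_int 1
    push_cast at this
    rw [this]
    norm_num
  have x2 : (lam : eis) ∉ (sp (4 * 1) : Ideal eis) := by
    rw [mul_one]
    have := mem_four 1 2
    have e : ((1 : ℤ) : eis) + ((2 : ℤ) : eis) * omr = lam := by unfold lam; push_cast; ring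
    rw [e] at this
    rw [this]
    norm_num
  have n1 := hne _ x1
  have n2 := hne _ x2
  have hdiff : XX L Ω 1 1 ≠ XX L Ω 1 lam := by
    intro h
    unfold XX at h
    rw [wp_eq_iff L] at h
    · have f4 : (4 : eis) * 1 ≠ 0 := mul_ne_zero four_ne one_ne_zero
      rcases h with h | h
      · have h3 : Ω * ((1 + lam : eis) : ℂ) / ((4 * 1 : eis) : ℂ) ∈ L.lattice := by
          convert h using 1
          push_cast
          ring
        rw [div_mem_iff hL f4, mul_one] at h3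
        have := mem_four 2 2
        have e : ((2 : ℤ) : eis) + ((2 : ℤ) : eis) * omr = 1 + lam := by
          unfold lam; push_cast; ring
        rw [e] at this
        rw [this] at h3
        norm_num at h3
      · have h3 : Ω * ((1 - lam : eis) : ℂ) / ((4 * 1 : eis) : ℂ) ∈ L.lattice := by
          convert h using 1
          push_cast
          ring
        rw [div_mem_iff hL f4, mul_one] at h3
        have := mem_four 0 (-2)
        have e : ((0 : ℤ) : eis) + ((-2 : ℤ) : eis) * omr = 1 - lam := by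
          unfold lam; push_cast; ring
        rw [e] at this
        rw [this] at h3
        norm_num at h3
    · rw [div_mem_iff hL (mul_ne_zero four_ne one_ne_zero)]
      exact x1
    · rw [div_mem_iff hL (mul_ne_zero four_ne one_ne_zero)]
      exact x2
  refine ⟨_, z1, ?_⟩
  rw [hD]
  change XX L Ω 1 1 ^ 2 - 2 * _ * XX L Ω 1 1 - _ = 0 at q1
  change XX L Ω 1 lam ^ 2 - 2 * _ * XX L Ω 1 lam - _ = 0 at q2
  set z := ℘[L] (2 * (Ω * ((1 : eis) : ℂ) / ((4 * 1 : eis) : ℂ)))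
  set X := XX L Ω 1 1
  set Y := XX L Ω 1 lam
  have h5 : X + Y = 2 * z := by
    have h6 : (X - Y) * (X + Y - 2 * z) = 0 := by linear_combination q1 - q2
    have := (mul_eq_zero.1 h6).resolve_left (sub_ne_zero.2 hdiff)
    linear_combination this
  have h6 : X * Y = -2 * z ^ 2 := by
    have : Y = 2 * z - X := by linear_combination h5
    rw [this]
    linear_combination -q1
  have h7 : (Y - X) ^ 2 = 12 * z ^ 2 := by
    linear_combination (X + Y + 2 * z) * h5 - 4 * h6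
  have hz0 : z ≠ 0 := by
    intro h
    rw [h] at z1
    norm_num at z1
  have h8 : (2 / X - 2 / Y) ^ 2 * z ^ 2 = 4 * (Y - X) ^ 2 * z ^ 2 / (X * Y) ^ 2 := by
    field_simp
    norm_num
  rw [h8, h7, h6]
  field_simp
  ring

end val

end Pool.Agent.W2helper66.TQ
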