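import Mathlib
import Pool.Agent.W2helper66.TQ.B5c

/-!
# Piece B5 of project TQ: the value at one is a unit above three
-/

set_option autoImplicit false

open Complex Filter Topology IsDedekindDomain
open scoped PeriodPair

namespace Pool.Agent.W2helper66.TQ

open H667R3 Pool.Agent.Y696 Pool.Agent.W192.HK Pool.Agent.TH936.CM Pool.Agent.TH936.PU
open Pool.Agent.W2helper24.TQ
open Pool.Agent.W192.CM (nu)

variable {L : PeriodPair} {Ω : ℂ} {c : eis}
variable {Γ : Type} [LinearOrderedCommGroupWithZero Γ] {v : Valuation ℂ Γ}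

/-- the factors at the primes of the conductor are units above three -/
lemma v_fac (hv : v 3 < 1) {tl t4 : eis → ℂ} (htl : Thl tl) (h4 : Th4 t4)
    (P : HeightOneSpectrum eis) (hP2 : IsCoprime (gP P) 2) (hP3 : IsCoprime (gP P) 3)
    (hgood : ∀ x : eis, x ^ 2 + 1 ∉ P.asIdeal) :
    v (1 - tl (gP P) * t4 (gP P) / (gP P : ℂ)) = 1 := by
  classical
  set π := gP P with hπ
  have hsp : P.asIdeal = sp π := gP_span P
  have : P.asIdeal.IsMaximal := P.isPrime.isMaximal P.ne_bot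
  let _ : Field (eis ⧸ P.asIdeal) := Ideal.Quotient.field P.asIdeal
  have hfin : Finite (eis ⧸ P.asIdeal) := by
    rw [hsp]
    exact finite_q (gP_ne P)
  let _ : Fintype (eis ⧸ P.asIdeal) := Fintype.ofFinite _
  have hsq : ¬ IsSquare (-1 : eis ⧸ P.asIdeal) := by
    rintro ⟨y, hy⟩
    obtain ⟨x, rfl⟩ := Ideal.Quotient.mk_surjective y
    apply hgood x
    rw [← Ideal.Quotient.eq_zero_iff_mem, map_add, map_pow, map_one, pow_two, ← hy]
    ring
  have h3 : Fintype.card (eis ⧸ P.asIdeal) % 4 = 3 := by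
    by_contra h
    exact hsq (FiniteField.isSquare_neg_one_iff.2 h)
  have hcard : ((Fintype.card (eis ⧸ P.asIdeal) : ℕ) : ℝ) = Complex.normSq (π : ℂ) := by
    rw [← nm_sp, ← hsp]
    unfold nm
    rw [Nat.card_eq_fintype_card]
  have hπ2 : π ∉ (sp 2 : Ideal eis) := cop_notMem two_not_unit hP2
  obtain ⟨j, hj⟩ := mod_two hπ2
  have hu1 : Complex.normSq om = 1 := (isUnit_iff' omr).1 omr_unit
  have hnorm : (omr ^ j * π) * cj (omr ^ j * π) =
      (((Fintype.card (eis ⧸ P.asIdeal) : ℕ) : ℤ) : eis) := by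
    apply coe_inj'
    rw [cj_mul_coe]
    have e : ((omr ^ j * π : eis) : ℂ) = om ^ j * π := by
      push_cast
      rw [omr_coe]
    rw [e, Complex.normSq_mul, map_pow, hu1, one_pow, one_mul, ← hcard]
    push_cast
    rfl
  have h5 : t4 (omr ^ j * π) = -1 := by
    refine h4.neg _ hj ?_
    rw [hnorm]
    have e : (((Fintype.card (eis ⧸ P.asIdeal) : ℕ) : ℤ) : eis) + 1 =
        (((Fintype.card (eis ⧸ P.asIdeal) : ℕ) : ℤ) + 1 : ℤ) := by push_cast; ring
    rw [e, mem_four_int]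
    omega
  rw [t4_om h4] at h5
  have hπ0 : (π : ℂ) ≠ 0 := coe_ne (gP_ne P)
  have homj : om ^ j ≠ 0 := pow_ne_zero _ om_ne
  have hvom : v (om ^ j) = 1 := by rw [map_pow, v_om, one_pow]
  have hom1 : v (om ^ j - 1) < 1 := v_root3 hv (k := 1) (by
    rw [pow_one, ← pow_mul, mul_comm, pow_mul, om_cube, one_pow])
  have vl := v_lam_lt hv
  have hvs : ∀ x : eis, x ∈ (sp lam : Ideal eis) → v (x : ℂ) < 1 := by
    intro x hx
    rw [Ideal.mem_span_singleton'] at hx
    obtain ⟨b, hb⟩ := hx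
    have : (x : ℂ) = b * lam := by
      rw [← hb]
      push_cast
      rfl
    rw [this]
    exact v_mul_lt (v_eis b) vl
  obtain ⟨ε, hε, hπε, htε⟩ : ∃ ε : ℂ, (ε = 1 ∨ ε = -1) ∧ v ((π : ℂ) - ε) < 1 ∧ tl π = ε := by
    rcases tl_cop htl (cop_lam hP3) with ⟨h6, h7⟩ | ⟨h6, h7⟩
    · refine ⟨1, Or.inl rfl, ?_, h7⟩
      have := hvs _ h6
      push_cast at this
      exact this
    · refine ⟨-1, Or.inr rfl, ?_, h7⟩
      have := hvs _ h6
      push_cast at this
      rw [sub_neg_eq_add]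
      exact this
  have vε : v (2 * ε) = 1 := by
    rw [map_mul, v2 hv]
    rcases hε with rfl | rfl
    · rw [map_one, one_mul]
    · rw [v.map_neg, map_one, one_mul]
  have h8 : om ^ j * π + ε = 2 * ε + ((om ^ j - 1) * π + (π - ε)) := by ring
  have h9 : v (om ^ j * π + ε) = 1 := by
    rw [h8, Valuation.map_add_eq_of_lt_left, vε]
    rw [vε]
    exact v_add_lt (v_mul_lt' hom1 (v_eis _)) hπε
  have h10 : 1 - tl π * t4 π / (π : ℂ) = (om ^ j * π + ε) / (om ^ j * π) := by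
    rw [htε]
    field_simp
    linear_combination (-ε) * h5
  rw [h10, map_div₀, h9, map_mul, hvom, v_cop3 hv hP3]
  simp

theorem piece (h1 : P_B1) (hB4 : P_B4) : P_B5 := by
  intro L Ω hC Γ _ v hv c η hc hc2 hc3 hP hη hk a ha
  classical
  obtain ⟨k, hk⟩ := hk
  obtain ⟨-, -, -, -, tl, t4, htl, h4, heo, hee⟩ := h1
  obtain ⟨⟨-, -, hz2⟩, hHH, -, hval⟩ := hB4.2 L Ω hC
  have hL := hC.lat
  have hΩ := hL.ne
  set τ := ℘'[L] (Ω / (lam : ℂ)) with hτ
  have hHH' : ∀ [Fintype (eis ⧸ (sp lam : Ideal eis))] (w : ℂ), ℘[L] w ≠ 0 →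
      HH L Ω lam tl w = -τ / ℘[L] w := by
    intro _ w hw
    exact hHH tl htl heo w hw
  have vτ : v τ = 1 := v_one_of_pow (n := 2) (by norm_num) (by rw [hz2, v.map_neg, v4 hv])
  have hc4 : (4 : eis) * c ≠ 0 := mul_ne_zero four_ne hc
  have h14 : (4 : eis) * 1 ≠ 0 := mul_ne_zero four_ne one_ne_zero
  have : Finite (eis ⧸ (sp (4 * c) : Ideal eis)) := finite_q hc4
  have : Fintype (eis ⧸ (sp (4 * c) : Ideal eis)) := Fintype.ofFinite _
  have : Finite (eis ⧸ (sp (4 * 1) : Ideal eis)) := finite_q h14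
  have : Fintype (eis ⧸ (sp (4 * 1) : Ideal eis)) := Fintype.ofFinite _
  have hX : ∀ d : eis, d ≠ 0 → IsCoprime d 3 → ∀ x : eis, x ∉ (sp (4 * d) : Ideal eis) →
      v (XX L Ω d x) = 1 ∧ v (XX L Ω d x - 1) ≤ v (lam : ℂ) := fun d hd hd3 x hx =>
    hval Γ v hv x (4 * d) (mul_ne_zero four_ne hd)
      (IsCoprime.mul_left lam_cop_four.symm (cop_lam hd3)) hx
  have hne : ∀ d : eis, d ≠ 0 → IsCoprime d 3 → ∀ x : eis, x ∉ (sp (4 * d) : Ideal eis) →
      XX L Ω d x ≠ 0 := fun d hd hd3 x hx => ne_of_v (hX d hd hd3 x hx).1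
  have vlam := v_lam_ne (v := v)
  have v30 : v 3 ≠ 0 := by
    rw [Ne, Valuation.zero_iff]
    norm_num
  -- the valuation of the limits
  have hvl : ∀ (d : eis) (χ D : ℂ), d ≠ 0 → IsCoprime d 3 → v χ = 1 →
      v (Ω / (lam * ((4 * d : eis) : ℂ)) * (tl (4 * d) * χ) * (-τ * (3 * D))) =
        v Ω * v 3 * v D / v (lam : ℂ) := by
    intro d χ D hd hd3 hχ
    have e1 : v ((4 * d : eis) : ℂ) = 1 := v_cop3 hv (IsCoprime.mul_left ⟨1, -1, by norm_num⟩ hd3)
    have e2 : v (tl (4 * d)) = 1 := by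
      rcases tl_cop htl (x := 4 * d) (IsCoprime.mul_left lam_cop_four.symm (cop_lam hd3)) with h | h
      · rw [h.2, map_one]
      · rw [h.2, v.map_neg, map_one]
    rw [map_mul, map_mul, map_mul, map_mul, map_mul, map_div₀, map_mul, v.map_neg, vτ, e1, e2, hχ]
    simp only [mul_one, one_mul]
    rw [div_mul_eq_mul_div, mul_assoc]
  have vch : ∀ (d : eis) (χ : MulChar (eis ⧸ (sp d : Ideal eis)) ℂ), χ ^ (3 ^ k) = 1 →
      IsCoprime d 3 → v (ch t4 χ lam) = 1 := by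
    intro d χ hχ hd3
    unfold ch
    rw [t4_lam h4, map_mul, v.map_neg, map_one, one_mul]
    exact v_one_of_pow (n := 3 ^ k) (by positivity) (by
      rw [et_root hχ (cop_lam hd3).symm, map_one])
  have hηone : ∀ (d : eis), ∀ u : eis, IsUnit u →
      et (1 : MulChar (eis ⧸ (sp d : Ideal eis)) ℂ) u = 1 := by
    intro d u hu
    obtain ⟨w, hw⟩ := hu.exists_right_inv
    exact et_one_cop ⟨w, 0, by linear_combination hw⟩
  -- the limits
  have l1 := key_lim hL h4 heo one_ne_zero isCoprime_one_left (hηone 1) (τ := τ) (fun w hw => hHH' w hw)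
    (hne 1 one_ne_zero isCoprime_one_left)
  have lc := key_lim hL h4 heo hc hc3 (hηone c) (τ := τ) (fun w hw => hHH' w hw) (hne c hc hc3)
  have lη := key_lim hL h4 heo hc hc3 hη (τ := τ) (fun w hw => hHH' w hw) (hne c hc hc3)
  rw [sum_three hL one_ne_zero h4 (hηone 1)] at l1
  rw [sum_three hL hc h4 (hηone c)] at lc
  rw [sum_three hL hc h4 hη] at lη
  change Tendsto _ _ (𝓝 (_ * (-τ * (3 * DD L Ω t4 (1 : MulChar (eis ⧸ (sp 1 : Ideal eis)) ℂ))))) at l1
  change Tendsto _ _ (𝓝 (_ * (-τ * (3 * DD L Ω t4 (1 : MulChar (eis ⧸ (sp c : Ideal eis)) ℂ))))) at lc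
  change Tendsto _ _ (𝓝 (_ * (-τ * (3 * DD L Ω t4 η)))) at lη
  -- the trivial character
  have hcm : CM (fun α : eis => tl α * ch t4 (1 : MulChar (eis ⧸ (sp 1 : Ideal eis)) ℂ) α) := by
    refine ⟨fun x y => ?_, fun x => ?_⟩
    · rw [heo.mul, ch_mul h4]
      ring
    · rw [norm_mul]
      exact mul_le_one₀ (heo.bd x) (norm_nonneg _) ((xo_ch one_ne_zero h4 (hηone 1)).bd x)
  have l2 := lim_rmv hL hcm gP gP_span l1 (Sc hc)
  have e1 : rmv (Sc hc) (fun α : eis => tl α * ch t4 (1 : MulChar (eis ⧸ (sp 1 : Ideal eis)) ℂ) α) =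
      fun α : eis => tl α * ch t4 (1 : MulChar (eis ⧸ (sp c : Ideal eis)) ℂ) α := by
    funext α
    unfold rmv ch
    by_cases h : ∃ P ∈ Sc hc, α ∈ P.asIdeal
    · rw [if_pos h]
      obtain ⟨P, hPm, hPα⟩ := h
      have h2 : et (1 : MulChar (eis ⧸ (sp c : Ideal eis)) ℂ) α = 0 := by
        rw [et_zero_iff, cop_iff hc]
        exact fun h3 => h3 P hPm hPα
      rw [h2, map_zero, mul_zero, mul_zero]
    · rw [if_neg h]
      have h2 : IsCoprime α c := by
        rw [cop_iff hc]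
        intro P hPm hα
        exact h ⟨P, hPm, hα⟩
      beta_reduce
      rw [et_one_cop h2, et_one_cop isCoprime_one_right]
  rw [e1] at l2
  have k1 := tendsto_nhds_unique lc l2
  have vprod : v (∏ P ∈ Sc hc, (1 - tl (gP P) *
      ch t4 (1 : MulChar (eis ⧸ (sp 1 : Ideal eis)) ℂ) (gP P) / (gP P : ℂ))) = 1 := by
    rw [map_prod]
    refine Finset.prod_eq_one fun P hPm => ?_
    have h3 := (mem_Sc hc).1 hPm
    have h3' := h3
    rw [gP_span, Ideal.mem_span_singleton] at h3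
    have e2 : ch t4 (1 : MulChar (eis ⧸ (sp 1 : Ideal eis)) ℂ) (gP P) = t4 (gP P) := by
      unfold ch
      rw [et_one_cop isCoprime_one_right, map_one, mul_one]
    rw [e2]
    exact v_fac hv htl h4 P (hc2.of_isCoprime_of_dvd_left h3) (hc3.of_isCoprime_of_dvd_left h3)
      (hP P h3')
  have k2 := hvl c _ (DD L Ω t4 (1 : MulChar (eis ⧸ (sp c : Ideal eis)) ℂ)) hc hc3
    (vch c 1 (one_pow _) hc3)
  rw [k1, map_mul, vprod, mul_one,
    hvl 1 _ _ one_ne_zero isCoprime_one_left (vch 1 1 (one_pow _) isCoprime_one_left)] at k2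
  have vΩ : v Ω ≠ 0 := by rwa [Ne, Valuation.zero_iff]
  have k3 : v (DD L Ω t4 (1 : MulChar (eis ⧸ (sp c : Ideal eis)) ℂ)) =
      v (DD L Ω t4 (1 : MulChar (eis ⧸ (sp 1 : Ideal eis)) ℂ)) := by
    have h5 := (div_left_inj' vlam).1 k2
    exact (mul_left_cancel₀ (mul_ne_zero vΩ v30) h5).symm
  obtain ⟨z, hz, hDz⟩ := DD_one hC h4 (hne 1 one_ne_zero isCoprime_one_left)
  have vz : v z = 1 := v_one_of_pow (n := 3) (by norm_num) (by rw [hz, map_one])
  have k4 : v (DD L Ω t4 (1 : MulChar (eis ⧸ (sp 1 : Ideal eis)) ℂ)) = v (lam : ℂ) := by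
    have h5 := congrArg v hDz
    rw [map_mul, map_pow, map_pow, vz, one_pow, mul_one] at h5
    have h6 : v 12 = v 3 := by
      have : (12 : ℂ) = 4 * 3 := by norm_num
      rw [this, map_mul, v4 hv, one_mul]
    rw [h6, ← v_lam_sq (v := v)] at h5
    exact (pow_left_inj₀ zero_le zero_le two_ne_zero).1 h5
  have k5 := DD_sub hv hc2 h4 hk (hX c hc hc3)
  have k6 : v (DD L Ω t4 η) = v (lam : ℂ) := by
    have e : DD L Ω t4 η = DD L Ω t4 (1 : MulChar (eis ⧸ (sp c : Ideal eis)) ℂ) +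
        (DD L Ω t4 η - DD L Ω t4 (1 : MulChar (eis ⧸ (sp c : Ideal eis)) ℂ)) := by ring
    rw [e, Valuation.map_add_eq_of_lt_left, k3, k4]
    rw [k3, k4]
    exact k5
  -- the conclusion
  have e3 : ecm η = fun α => tl α * ch t4 η α := by
    funext α
    unfold ecm ch
    rw [hee]
    ring
  rw [e3] at ha
  have k7 := tendsto_nhds_unique ha lη
  have k8 := congrArg v k7
  rw [hvl c _ _ hc hc3 (vch c η hk hc3), k6, mul_div_assoc, div_self vlam, mul_one, map_mul,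
    nu_six] at k8
  have v6 : v ((6 : ℕ) : ℂ) = v 3 := by
    have : ((6 : ℕ) : ℂ) = 2 * 3 := by norm_num
    rw [this, map_mul, v2 hv, one_mul]
  rw [v6, mul_comm (v Ω)] at k8
  have k9 := mul_left_cancel₀ v30 k8
  rw [map_div₀, k9, div_self vΩ]

end Pool.Agent.W2helper66.TQ
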