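import Mathlib
import Pool.Agent.W2helper24.TQ.Stm2
import Pool.Agent.W2helper10.TQ.B2

/-!
# Project TQ, piece H2: the number of points of `y² = x³ - D²`
-/

set_option autoImplicit false

open Complex

namespace Pool.Agent.W2helper66.TQ

open Pool.Agent.Y696 Pool.Agent.W192.HK Pool.Agent.W2helper24.TQ Pool.Agent.W2helper10.TQ

/-- the two character sums, as in piece B2 -/
theorem sums (k : Type) [Field k] [Fintype k] (ρ : eis →+* k) (π : eis) (hπ : Prime π) (hPrm : Prm π)
    (h2 : (2 : k) ≠ 0) (h3 : (3 : k) ≠ 0) (hker : ∀ x, ρ x = 0 ↔ π ∣ x) (f : ℕ)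
    (hq : ((Fintype.card k : ℕ) : eis) = (π * cj π) ^ f) :
    ∃ χ : MulChar k eis, χ ^ 3 = 1 ∧ (∀ x : k, x ≠ 0 → ρ (χ x) = x ^ ((Fintype.card k - 1) / 3)) ∧
      ∑ y : k, χ (1 + y ^ 2) = -π ^ f ∧ ∑ y : k, χ (1 + y ^ 2) ^ 2 = -(cj π) ^ f := by
  classical
  obtain ⟨ε, hε, hm2, hml, hm4⟩ := hPrm
  have hr2 : ringChar k ≠ 2 := by
    intro h
    apply h2
    have := ringChar.Nat.cast_ringChar (R := k)
    rw [h] at this
    exact_mod_cast this
  obtain ⟨χ, hχ3, hχ1, hρ⟩ := exists_chi ρ h3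
  have hd := three_dvd ρ h3
  -- the primary generator
  have hcop : IsCoprime π 3 := by
    have hp3 : ¬ π ∣ 3 := by
      intro h
      apply h3
      have := (hker 3).2 h
      rwa [map_ofNat] at this
    obtain ⟨a, b, hab⟩ : ∃ a b : eis, a * π + b * 3 = 1 := by
      have h4 : IsCoprime (sp π : Ideal eis) (sp 3) := by
        rw [Ideal.isCoprime_span_singleton_iff]
        exact (Irreducible.coprime_iff_not_dvd hπ.irreducible).2 hp3
      rw [Ideal.isCoprime_span_singleton_iff] at h4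
      exact h4
    exact ⟨a, b, hab⟩
  obtain ⟨π', hπ', hπ'1⟩ := exists_prim (I := sp π) ((Ideal.isCoprime_span_singleton_iff _ _).2 hcop)
  obtain ⟨w, hw⟩ := Ideal.span_singleton_eq_span_singleton.1 hπ'
  have hwn := (isUnit_iff' (w : eis)).1 w.isUnit
  have hker' : ∀ x, ρ x = 0 ↔ π' ∣ x := by
    intro x
    rw [hker, ← hw]
    exact (w.mul_right_dvd).symm
  have hπ'p : Prime π' := by
    rw [← hw]
    exact (Associated.prime_iff ⟨w, rfl⟩).1 hπ
  have hq' : ((Fintype.card k : ℕ) : eis) = (π' * cj π') ^ f := by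
    rw [hq]
    congr 1
    apply coe_inj'
    rw [cj_mul_coe, cj_mul_coe, ← hw]
    push_cast
    rw [Complex.normSq_mul, hwn, mul_one]
  obtain ⟨hJ1, hJ2⟩ := jac_eq ρ h3 hχ3 hχ1 hρ hπ'p hπ'1 hker' hq'
  set S := ∑ y : k, χ (1 + y ^ 2) with hS
  -- the sign
  have hsgn : ((quadraticChar k (-1) : ℤ) : eis) = (ε : eis) ^ f := by
    have h5 : ((Fintype.card k : ℤ) : eis) - ((ε ^ f : ℤ) : eis) ∈ (sp 4 : Ideal eis) := by
      have := pow_mem_one _ _ _ hm4 f
      push_cast
      rw [hq]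
      exact this
    rw [← Int.cast_sub] at h5
    have h6 := int_four _ h5
    have h7 : ((Fintype.card k : ℕ) : ZMod 4) = ((ε ^ f : ℤ) : ZMod 4) := by
      have := (ZMod.intCast_eq_intCast_iff_dvd_sub (ε ^ f) (Fintype.card k : ℤ) 4).2 (by exact_mod_cast h6)
      rw [this]; simp
    rw [quadraticChar_neg_one hr2, h7]
    have h8 : ∀ z : ℤ, (z = 1 ∨ z = -1) → ZMod.χ₄ ((z : ℤ) : ZMod 4) = z := by
      rintro z (rfl | rfl)
      · simp
      · push_cast
        decide
    have h9 : ε ^ f = 1 ∨ ε ^ f = -1 := by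
      rcases hε with rfl | rfl
      · left; simp
      · exact neg_one_pow_eq_or ℤ f
    rw [h8 _ h9]
    push_cast
    rfl
  -- `S = v π ^ f`
  obtain ⟨v, hv, hSv⟩ : ∃ v : eis, IsUnit v ∧ S = v * π ^ f := by
    refine ⟨-(((ε : eis) ^ f) * χ 4 * (w : eis) ^ f), ?_, ?_⟩
    · have h4 : (4 : k) ≠ 0 := by
        have : (4 : k) = 2 * 2 := by norm_num
        rw [this]; exact mul_ne_zero h2 h2
      have h5 : IsUnit (χ 4) := IsUnit.of_mul_eq_one (χ 4 ^ 2) (by rw [← pow_succ']; exact chi_one hχ3 h4)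
      have h6 : IsUnit (ε : eis) := by
        rcases hε with rfl | rfl
        · simp
        · push_cast; exact isUnit_one.neg
      exact (((h6.pow f).mul h5).mul (w.isUnit.pow f)).neg
    · rw [hS, S_eq hr2 hχ1, hJ1, hsgn, ← hw]
      ring
  have hv1 : v = -1 := by
    have hπ2 : π ^ f - 1 ∈ (sp 2 : Ideal eis) := by
      have := pow_mem_one _ _ _ hm2 f
      rwa [one_pow] at this
    have hπl : π ^ f - (ε : eis) ^ f ∈ (sp lam : Ideal eis) := pow_mem_one _ _ _ hml f
    have he2 : (ε : eis) ^ f * (ε : eis) ^ f = 1 := by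
      rw [← mul_pow]
      rcases hε with rfl | rfl <;> simp
    apply unit_two_lam hv
    · have a1 := S_two hr2 χ
      rw [← hS, hSv] at a1
      have a2 := Ideal.mul_mem_left _ v hπ2
      have a3 := Ideal.sub_mem _ a1 a2
      have a4 : (2 : eis) ∈ (sp 2 : Ideal eis) := Ideal.mem_span_singleton_self _
      have a5 := Ideal.add_mem _ a3 a4
      convert a5 using 1
      ring
    · have a1 := S_lam hr2 hd hχ3
      rw [← hS, hSv, hsgn] at a1
      have a2 := Ideal.mul_mem_left _ v hπl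
      have a3 := Ideal.sub_mem _ a1 a2
      have a4 := Ideal.mul_mem_left _ ((ε : eis) ^ f) a3
      convert a4 using 1
      linear_combination (-v - 1) * he2
  have hSf : S = -π ^ f := by rw [hSv, hv1]; ring
  -- the conjugate sum
  have hS' : ∑ y : k, χ (1 + y ^ 2) ^ 2 = -(cj π) ^ f := by
    have e1 : ∑ y : k, χ (1 + y ^ 2) ^ 2 = cjh S := by
      rw [hS, map_sum]
      refine Finset.sum_congr rfl fun y _ => ?_
      have hinv : χ⁻¹ (1 + y ^ 2) = χ (1 + y ^ 2) ^ 2 := by
        have : χ⁻¹ = χ ^ 2 := by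
          rw [inv_eq_iff_mul_eq_one, ← pow_succ', hχ3]
        rw [this, MulChar.pow_apply' _ two_ne_zero]
      rw [← hinv, ← cj_chi hχ3, MulChar.ringHomComp_apply]
    rw [e1, hSf, map_neg, map_pow]
    rfl
  exact ⟨χ, hχ3, hρ, hSf, hS'⟩

lemma cube_root {a : eis} (ha : a ^ 3 = 1) : a = 1 ∨ a = omr ∨ a = omr ^ 2 := by
  have h1 : (a - 1) * ((a - omr) * (a - omr ^ 2)) = 0 := by
    linear_combination ha + ((a - 1) * (-a + omr - 1)) * omr_sq
  rcases mul_eq_zero.1 h1 with h | h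
  · left; exact sub_eq_zero.1 h
  · rcases mul_eq_zero.1 h with h | h
    · right; left; exact sub_eq_zero.1 h
    · right; right; exact sub_eq_zero.1 h

lemma root_inj {k : Type} [Field k] (ρ : eis →+* k) (h3 : (3 : k) ≠ 0) {a b : eis} (ha : a ^ 3 = 1) (hb : b ^ 3 = 1)
    (h : ρ a = ρ b) : a = b := by
  have h1 : ρ omr ^ 2 + ρ omr + 1 = 0 := by
    have := congrArg ρ omr_sq
    simp only [map_pow, map_one, map_add, map_zero] at this
    linear_combination this
  have n0 : ρ omr ≠ 0 := by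
    intro h0
    rw [h0] at h1
    norm_num at h1
  have n1 : ρ omr ≠ 1 := by
    intro h0
    rw [h0] at h1
    apply h3
    linear_combination h1
  have n2 : ρ omr ^ 2 ≠ 1 := by
    intro h0
    have h4 : ρ omr = -2 := by linear_combination h1 - h0
    rw [h4] at h1
    apply h3
    linear_combination h1
  have n3 : ρ omr ^ 2 ≠ ρ omr := by
    intro h0
    have : ρ omr * (ρ omr - 1) = 0 := by linear_combination h0
    rcases mul_eq_zero.1 this with h | h
    · exact n0 h
    · exact n1 (sub_eq_zero.1 h)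
  rcases cube_root ha with rfl | rfl | rfl <;> rcases cube_root hb with rfl | rfl | rfl <;>
    first
    | rfl
    | (exfalso; simp only [map_one, map_pow] at h
       first
       | exact n1 h
       | exact n1 h.symm
       | exact n2 h
       | exact n2 h.symm
       | exact n3 h
       | exact n3 h.symm)

lemma cj_root {z : eis} (hz : z ^ 3 = 1) : cj z = z ^ 2 := by
  have hu : IsUnit z := IsUnit.of_mul_eq_one (z ^ 2) (by rw [← pow_succ']; exact hz)
  have h1 : Complex.normSq (z : ℂ) = 1 := (isUnit_iff' z).1 hu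
  have h2 : z * cj z = 1 := by
    apply coe_inj'
    rw [cj_mul_coe, h1]
    simp
  calc cj z = z ^ 3 * cj z := by rw [hz, one_mul]
    _ = z ^ 2 * (z * cj z) := by ring
    _ = z ^ 2 := by rw [h2, mul_one]

theorem pieceH2 : P_H2 := by
  classical
  intro k _ _ ρ π hπ hPrm h2 h3 hker f hq D z hD hz hρz
  obtain ⟨χ, hχ3, hρ, hS, hS'⟩ := sums k ρ π hπ hPrm h2 h3 hker f hq
  have hχD : χ (D : k) = z := by
    apply root_inj ρ h3 (chi_one hχ3 hD) hz
    rw [hρ _ hD, hρz]
  have hD2 : ∀ y : k, χ ((D : k) ^ 2 + ((D : k) * y) ^ 2) = z ^ 2 * χ (1 + y ^ 2) := by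
    intro y
    have : (D : k) ^ 2 + ((D : k) * y) ^ 2 = (D : k) ^ 2 * (1 + y ^ 2) := by ring
    rw [this, map_mul, map_pow, hχD]
  have hb : Function.Bijective (fun y : k => (D : k) * y) := mulLeft_bijective₀ _ hD
  have t1 : ∑ y : k, χ ((D : k) ^ 2 + y ^ 2) = -(z ^ 2 * π ^ f) := by
    rw [← Function.Bijective.sum_comp hb (fun y => χ ((D : k) ^ 2 + y ^ 2))]
    simp only [hD2]
    rw [← Finset.mul_sum, hS]
    ring
  have t2 : ∑ y : k, χ ((D : k) ^ 2 + y ^ 2) ^ 2 = -(z * (cj π) ^ f) := by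
    rw [← Function.Bijective.sum_comp hb (fun y => χ ((D : k) ^ 2 + y ^ 2) ^ 2)]
    have e : ∀ y : k, χ ((D : k) ^ 2 + ((D : k) * y) ^ 2) ^ 2 = z ^ 4 * χ (1 + y ^ 2) ^ 2 := by
      intro y
      rw [hD2]; ring
    simp only [e]
    rw [← Finset.mul_sum, hS']
    linear_combination (-z * cj π ^ f) * hz
  have e1 : Nat.card {p : k × k // p.2 ^ 2 = p.1 ^ 3 - (D : k) ^ 2} =
      ∑ y : k, Nat.card {x : k // x ^ 3 = (D : k) ^ 2 + y ^ 2} := by
    rw [← Nat.card_sigma]
    refine Nat.card_congr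
      { toFun := fun p => ⟨p.1.2, p.1.1, by rw [p.2]; ring⟩
        invFun := fun p => ⟨(p.2.1, p.1), by
          have := p.2.2
          simp only
          rw [this]; ring⟩
        left_inv := fun p => rfl
        right_inv := fun p => rfl }
  rw [e1]
  push_cast
  simp only [card_cube ρ hχ3 h3 hρ]
  rw [Finset.sum_add_distrib, Finset.sum_add_distrib, t1, t2, cj_root hz]
  simp
  ring

end Pool.Agent.W2helper66.TQ
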